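import Pool.Agent.R962.CT.Final

/-!
# Non-concavity of the critical curve for two-length oriented percolation on trees

For the rooted `d`-ary tree with edges of length `1` (open with probability `p`) and of length `k`
(open with probability `q`), the critical curve `q_c(p) = inf {q ∈ (0,1) : θ(p,q) > 0}` is not
concave on `[0, δ]`, for every `d ≥ 2`, every `k ≥ 2` and every `δ ∈ (0, 1]`, however small.

Idea of the proof: near `p = 0` one has
`(1 - p d) / (d ^ k (1 - p ^ k)) ≤ q_c(p) ≤ (1 - p d + 5 p ^ 2) / d ^ k`; the upper bound (see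
`Pool.Agent.R962.CT.qc_upper`) says that the curve leaves the point `(0, d ^ (-k))` in the direction
of the chord to `(1/d, 0)`, and the lower bound says that it is strictly above that chord.
-/

set_option autoImplicit false

namespace Pool.Agent.Results.MP_ea7c0e_pr.NotConcaveNearZero

open Pool.Agent.R962.CT

/-- **The critical curve is not concave near the origin**, for all `d, k ≥ 2`. -/
theorem result : ∀ d k : ℕ, 2 ≤ d → 2 ≤ k → ∀ δ : ℝ, 0 < δ → δ ≤ 1 →
    ¬ ConcaveOn ℝ (Set.Icc 0 δ) (qc d k) :=
  fun _ _ hd hk _ hδ _ => not_concave hd hk hδ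

end Pool.Agent.Results.MP_ea7c0e_pr.NotConcaveNearZero
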